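import Mathlib
import Pool.Agent.H72.Arc.Core

/-!
Quadratic means over arcs of the generating functions of the sets that are invariant under the
Collatz map on the integers.

Let `S` be a set of integers such that, for all `x ≥ 1`, `x` belongs to `S` if and only if `C x`
does, for example a union of basins of cycles. If `S` contains some but not all positive integers
then the generating function of the positive integers in `S` is large in quadratic mean near every
arc of the unit circle. So the question, restricted to positive integers, is whether on some arc the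
quadratic mean is small.
-/

set_option autoImplicit false

namespace Pool.Agent.Results.MP_d02c56_nt.ArcMeans

open Filter Topology

/-- The Collatz map on the integers. -/
def C (x : ℤ) : ℤ := if 2 ∣ x then x / 2 else 3 * x + 1

/-- The set of the integers whose trajectory reaches the cycle of `1`. -/
def basin : Set ℤ := {x | ∃ k, C^[k] x ∈ ({1, 4, 2} : Set ℤ)}

/-- The generating function of the positive integers in `S`. -/
noncomputable def gen (S : Set ℤ) (z : ℂ) : ℂ :=
  ∑' n : ℕ, {n : ℕ | 1 ≤ n ∧ (n : ℤ) ∈ S}.indicator (fun m => z ^ m) n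

/-- The quadratic mean of the generating function over the arc of radius `r` and angles in
`(α, β)`. -/
noncomputable def mean (S : Set ℤ) (α β r : ℝ) : ℝ :=
  ∫ θ : ℝ in α..β, ‖gen S ((r : ℂ) * Complex.exp ((θ : ℂ) * Complex.I))‖ ^ 2

theorem C_nat (n : ℕ) : C (n : ℤ) = (H72.Arc.T n : ℤ) := by
  unfold C H72.Arc.T
  by_cases h : n % 2 = 0
  · rw [if_pos (by omega), if_pos h]
    push_cast
    rfl
  · rw [if_neg (by omega), if_neg h]
    push_cast
    rfl

theorem iter_nat (k n : ℕ) : C^[k] (n : ℤ) = (H72.Arc.T^[k] n : ℤ) := by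
  induction k generalizing n with
  | zero => rfl
  | succ k ih =>
    rw [Function.iterate_succ_apply, Function.iterate_succ_apply, C_nat, ih]

theorem reach_eq : {n : ℕ | 1 ≤ n ∧ (n : ℤ) ∈ basin} = H72.Arc.reach := by
  ext n
  constructor
  · rintro ⟨h1, k, hk⟩
    refine ⟨h1, ?_⟩
    rw [iter_nat] at hk
    rcases hk with h | h | h
    · exact ⟨k, by exact_mod_cast h⟩
    · refine ⟨2 + k, ?_⟩
      have h4 : H72.Arc.T^[k] n = 4 := by exact_mod_cast h
      rw [Function.iterate_add_apply, h4]
      decide
    · refine ⟨1 + k, ?_⟩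
      have h4 : H72.Arc.T^[k] n = 2 := by
        have h5 : (H72.Arc.T^[k] n : ℤ) = 2 := h
        exact_mod_cast h5
      rw [Function.iterate_add_apply, h4]
      decide
  · rintro ⟨h1, k, hk⟩
    refine ⟨h1, k, ?_⟩
    rw [iter_nat, hk]
    left
    rfl

/-- (1) Let `S` be a set of integers such that a positive integer belongs to `S` if and only if its
image under the Collatz map does. If some positive integer belongs to `S` and some does not then on
every arc the quadratic mean of the generating function of the positive integers in `S` grows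
faster than `log (1 / (1 - r))` as `r → 1`.
(2) All positive integers reach the cycle `1, 4, 2` if and only if, on some arc and for some radii
that tend to `1`, the quadratic mean for the set of the integers that reach this cycle is at most a
constant times `log (1 / (1 - r))`. -/
theorem result :
    (∀ S : Set ℤ, (∀ x : ℤ, 1 ≤ x → (C x ∈ S ↔ x ∈ S)) →
      (∃ x : ℤ, 1 ≤ x ∧ x ∈ S) → (∃ x : ℤ, 1 ≤ x ∧ x ∉ S) → ∀ α β : ℝ, α < β →
        Tendsto (fun r : ℝ => mean S α β r / Real.log (1 / (1 - r))) (𝓝[<] (1 : ℝ)) atTop) ∧
    ((∀ x : ℤ, 1 ≤ x → ∃ k, C^[k] x ∈ ({1, 4, 2} : Set ℤ)) ↔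
      ∃ α β K : ℝ, α < β ∧
        ∃ᶠ r : ℝ in 𝓝[<] (1 : ℝ), mean basin α β r ≤ K * Real.log (1 / (1 - r))) := by
  obtain ⟨h1, h2⟩ := H72.Arc.main_nat
  constructor
  · intro S hS hne hall α β hαβ
    refine h1 {n : ℕ | 1 ≤ n ∧ (n : ℤ) ∈ S} (by rintro ⟨h, _⟩; omega) ?_ ?_ ?_ α β hαβ
    · intro n hn
      have h3 := hS n (by exact_mod_cast hn)
      rw [C_nat] at h3
      have hT : 1 ≤ H72.Arc.T n := by
        unfold H72.Arc.T
        split_ifs <;> omega
      constructor
      · rintro ⟨_, h⟩
        exact ⟨hn, h3.1 h⟩
      · rintro ⟨_, h⟩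
        exact ⟨hT, h3.2 h⟩
    · obtain ⟨x, hx, hxS⟩ := hne
      intro h
      have : x.toNat ∈ {n : ℕ | 1 ≤ n ∧ (n : ℤ) ∈ S} :=
        ⟨by omega, by rw [Int.toNat_of_nonneg (by omega)]; exact hxS⟩
      rw [h] at this
      exact this
    · obtain ⟨x, hx, hxS⟩ := hall
      intro h
      have h4 : x.toNat ∈ {n : ℕ | 1 ≤ n} := by
        show 1 ≤ x.toNat
        omega
      rw [← h] at h4
      have h5 := h4.2
      rw [Int.toNat_of_nonneg (by omega)] at h5
      exact hxS h5
  · have e : ∀ α β r, mean basin α β r = H72.Arc.mean H72.Arc.reach α β r := by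
      intro α β r
      unfold mean H72.Arc.mean gen H72.Arc.gen
      rw [reach_eq]
    simp only [e]
    rw [← h2]
    constructor
    · intro h n hn
      have h3 : n ∈ H72.Arc.reach := by
        rw [← reach_eq]
        exact ⟨hn, h n (by exact_mod_cast hn)⟩
      exact h3.2
    · intro h x hx
      have h3 : x.toNat ∈ {n : ℕ | 1 ≤ n ∧ (n : ℤ) ∈ basin} := by
        rw [reach_eq]
        exact ⟨by omega, h _ (by omega)⟩
      have h4 := h3.2
      rw [Int.toNat_of_nonneg (by omega)] at h4
      exact h4

end Pool.Agent.Results.MP_d02c56_nt.ArcMeans
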