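import Mathlib
import Pool.Agent.H547R3.Sub.Merge

set_option autoImplicit false

namespace Pool.Agent.Results.MP_d02c56_nt.Coalescence

/-- The accelerated Collatz map on the integers. -/
def T (x : ℤ) : ℤ := if x % 2 = 0 then x / 2 else (3 * x + 1) / 2

/-- The number of odd terms among `x, T x, ..., T^(n-1) x`. -/
def odds (x : ℤ) (n : ℕ) : ℕ := ((Finset.range n).filter fun j => T^[j] x % 2 = 1).card

/-- parity as a natural number -/
def par (x : ℤ) (j : ℕ) : ℕ := (T^[j] x % 2).toNat

/-- the additive part of the affine map of a word -/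
def Sw (w : ℕ → ℕ) (a : ℕ) : ℕ → ℤ
  | 0 => 0
  | n + 1 => 3 ^ (w (a + n)) * Sw w a n + 2 ^ n * (w (a + n) : ℤ)

lemma Sw_bound {w : ℕ → ℕ} (hw : ∀ j, w j ≤ 1) (a n : ℕ) :
    0 ≤ Sw w a n ∧ Sw w a n ≤ 3 ^ n - 2 ^ n := by
  induction n with
  | zero => simp [Sw]
  | succ n ih =>
    have h2 : (0 : ℤ) < 2 ^ n := by positivity
    have h3 : (2 : ℤ) ^ n ≤ 3 ^ n := pow_le_pow_left₀ (by norm_num) (by norm_num) n
    simp only [Sw]
    rw [pow_succ, pow_succ]
    rcases Nat.le_one_iff_eq_zero_or_eq_one.1 (hw (a + n)) with h | h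
    · rw [h]
      constructor
      · simpa using ih.1
      · simp only [pow_zero, one_mul, Nat.cast_zero, mul_zero, add_zero]
        linarith [ih.2]
    · rw [h]
      constructor
      · have := ih.1
        positivity
      · simp only [pow_one, Nat.cast_one, mul_one]
        linarith [ih.2]

lemma Sw_congr {w w' : ℕ → ℕ} (a n : ℕ) (h : ∀ i < n, w (a + i) = w' (a + i)) :
    Sw w a n = Sw w' a n := by
  induction n with
  | zero => rfl
  | succ n ih =>
    simp only [Sw]
    rw [ih (fun i hi => h i (by omega)), h n (by omega)]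

lemma par_le (x : ℤ) (j : ℕ) : par x j ≤ 1 := by
  unfold par
  omega

lemma step (x : ℤ) (j : ℕ) : 2 * T^[j + 1] x = 3 ^ par x j * T^[j] x + par x j := by
  rw [Function.iterate_succ_apply']
  unfold par
  generalize T^[j] x = z
  unfold T
  rcases Int.emod_two_eq_zero_or_one z with h | h
  · rw [if_pos h, h]
    simp
    omega
  · rw [if_neg (by omega), h]
    simp
    omega

lemma odds_succ (x : ℤ) (n : ℕ) : odds x (n + 1) = odds x n + par x n := by
  unfold odds par
  rw [Finset.range_add_one, Finset.filter_insert]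
  rcases Int.emod_two_eq_zero_or_one (T^[n] x) with h | h
  · rw [if_neg (by omega), h]; simp
  · rw [if_pos h, h, Finset.card_insert_of_notMem (by simp)]; simp

lemma odds_le (x : ℤ) (n : ℕ) : odds x n ≤ n := by
  unfold odds
  refine (Finset.card_filter_le _ _).trans ?_
  rw [Finset.card_range]

lemma odds_mono (x : ℤ) {a b : ℕ} (h : a ≤ b) : odds x a ≤ odds x b := by
  unfold odds
  exact Finset.card_le_card (Finset.filter_subset_filter _ (Finset.range_mono h))

lemma formula (x : ℤ) (a n : ℕ) :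
    2 ^ n * T^[a + n] x = 3 ^ (odds x (a + n) - odds x a) * T^[a] x + Sw (par x) a n := by
  induction n with
  | zero => simp [Sw]
  | succ n ih =>
    have h1 := step x (a + n)
    have h2 := odds_succ x (a + n)
    have h3 := odds_mono x (show a ≤ a + n by omega)
    have h4 : odds x (a + (n + 1)) - odds x a = (odds x (a + n) - odds x a) + par x (a + n) := by
      rw [← add_assoc, h2]; omega
    rw [h4, pow_add (3 : ℤ), ← add_assoc]
    simp only [Sw]
    linear_combination (2 : ℤ) ^ n * h1 + (3 : ℤ) ^ par x (a + n) * ih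

/-- telescoping -/
lemma telescope (x y : ℤ) (s : ℕ) (t : ℕ → ℕ) (h0 : t 0 = 0) (hmono : ∀ i < s, t i ≤ t (i + 1))
    (ho : ∀ i ≤ s, odds x (t i) = odds y (t i)) : ∀ i ≤ s,
    2 ^ t i * (T^[t i] x - T^[t i] y) = 3 ^ odds x (t i) * (x - y) +
      ∑ k ∈ Finset.range i, (Sw (par x) (t k) (t (k + 1) - t k) - Sw (par y) (t k) (t (k + 1) - t k)) *
        (2 ^ t k * 3 ^ (odds x (t i) - odds x (t (k + 1)))) := by
  intro i
  induction i with
  | zero =>
    intro _
    rw [h0]
    simp [odds]
  | succ i ih =>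
    intro hi
    have h1 := ih (by omega)
    have hm := hmono i (by omega)
    have hx := formula x (t i) (t (i + 1) - t i)
    have hy := formula y (t i) (t (i + 1) - t i)
    rw [Nat.add_sub_cancel' hm] at hx hy
    rw [← ho i (by omega), ← ho (i + 1) hi] at hy
    have hp : (2 : ℤ) ^ t (i + 1) = 2 ^ t i * 2 ^ (t (i + 1) - t i) := by
      rw [← pow_add, Nat.add_sub_cancel' hm]
    have hom := odds_mono x hm
    have htm : ∀ k ≤ i, t k ≤ t i := by
      intro k hk
      induction i with
      | zero => rw [Nat.le_zero.1 hk]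
      | succ n ihn =>
        rcases Nat.lt_or_ge k (n + 1) with h | h
        · have hn : t n ≤ t (n + 1) := hmono n (by omega)
          have : ∀ m, k ≤ m → m ≤ n + 1 → t k ≤ t m := by
            intro m hm1 hm2
            induction m with
            | zero => rw [Nat.le_zero.1 hm1]
            | succ m ihm =>
              rcases Nat.lt_or_ge k (m + 1) with h' | h'
              · exact (ihm (by omega) (by omega)).trans (hmono m (by omega))
              · have : k = m + 1 := by omega
                rw [this]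
          exact this (n + 1) hk le_rfl
        · have : k = n + 1 := by omega
          rw [this]
    rw [Finset.sum_range_succ, hp, Nat.sub_self, pow_zero, mul_one]
    have e1 : ∀ k ∈ Finset.range i, (Sw (par x) (t k) (t (k + 1) - t k) -
        Sw (par y) (t k) (t (k + 1) - t k)) *
        (2 ^ t k * 3 ^ (odds x (t (i + 1)) - odds x (t (k + 1)))) =
        3 ^ (odds x (t (i + 1)) - odds x (t i)) * ((Sw (par x) (t k) (t (k + 1) - t k) -
        Sw (par y) (t k) (t (k + 1) - t k)) *
        (2 ^ t k * 3 ^ (odds x (t i) - odds x (t (k + 1))))) := by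
      intro k hk
      have hk' := Finset.mem_range.1 hk
      have h5 := odds_mono x (htm (k + 1) (by omega))
      have h6 : odds x (t (i + 1)) - odds x (t (k + 1)) =
          (odds x (t (i + 1)) - odds x (t i)) + (odds x (t i) - odds x (t (k + 1))) := by omega
      rw [h6, pow_add]
      ring
    rw [Finset.sum_congr rfl e1, ← Finset.mul_sum]
    have e2 : (3 : ℤ) ^ odds x (t (i + 1)) = 3 ^ (odds x (t (i + 1)) - odds x (t i)) *
        3 ^ odds x (t i) := by
      rw [← pow_add, Nat.sub_add_cancel hom]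
    rw [e2]
    linear_combination (3 : ℤ) ^ (odds x (t (i + 1)) - odds x (t i)) * h1 + 2 ^ t i * hx - 2 ^ t i * hy

/-- pigeonhole: a level `K - i m` with no `β k` just below it -/
lemma level (s K m : ℕ) (hm : (s + 1) * m ≤ K) (β : Fin s → ℕ) :
    ∃ i ≤ s, ∀ k, β k + m ≤ K - i * m ∨ K - i * m ≤ β k := by
  by_contra hcon
  push Not at hcon
  have hne : Nonempty (Fin s) := by
    obtain ⟨k, _⟩ := hcon 0 (Nat.zero_le _)
    exact ⟨k⟩
  choose! f hf using hcon
  obtain ⟨a, b, hab, hfab⟩ := Fintype.exists_ne_map_eq_of_card_lt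
    (fun i : Fin (s + 1) => f (i : ℕ)) (by simp)
  have main : ∀ a b : Fin (s + 1), (a : ℕ) < b → f (a : ℕ) = f (b : ℕ) → False := by
    intro a b hlt hfab
    have h1 := hf a (by omega)
    have h2 := hf b (by omega)
    rw [← hfab] at h2
    have h3 : ((a : ℕ) + 1) * m ≤ b * m := Nat.mul_le_mul_right _ hlt
    have h4 : (b : ℕ) * m ≤ (s + 1) * m := Nat.mul_le_mul_right _ (by omega)
    rw [add_mul, one_mul] at h3
    omega
  rcases Nat.lt_or_ge (a : ℕ) b with h | h
  · exact main a b h hfab
  · exact main b a (lt_of_le_of_ne h (fun hh => hab (Fin.ext hh.symm))) hfab.symm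

open Pool.Agent.H547R3.Sub in
/-- For every `s` and `η > 0` there is `ε > 0` such that for all large `N`: let `x`, `y` be integers
with `|x - y| ≤ 2 ^ ((1 - η) N)` and suppose that the parity words of length `N` of `x` and `y` can be
cut in the same places in `s` pieces, `u_1, ..., u_s` and `v_1, ..., v_s`, such that for each `i`
the words `u_i`, `v_i` have the same number of ones, and are equal or of length at most `ε N`, the
last pieces having length at least `η N`. Then `T^N x = T^N y`. -/
theorem result (s : ℕ) (η : ℝ) (hη : 0 < η) : ∃ ε : ℝ, 0 < ε ∧ ∃ N0 : ℕ, ∀ N : ℕ, N0 ≤ N →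
    ∀ (x y : ℤ) (t : ℕ → ℕ), |(x : ℝ) - y| ≤ (2 : ℝ) ^ ((1 - η) * N) →
    t 0 = 0 → t s = N → (∀ i < s, t i ≤ t (i + 1)) →
    (∀ i ≤ s, odds x (t i) = odds y (t i)) →
    (∀ i < s, (t (i + 1) : ℝ) - t i ≤ ε * N ∨
      ∀ j, t i ≤ j → j < t (i + 1) → T^[j] x % 2 = T^[j] y % 2) →
    η * N ≤ (N : ℝ) - t (s - 1) → T^[N] x = T^[N] y := by
  -- constants
  have hlog2 : (0.69 : ℝ) ≤ Real.log 2 := by linarith [Real.log_two_gt_d9]
  have hlog3 : Real.log 3 ≤ 1.1 := by
    have h1 : Real.log 3 ≤ Real.log (Real.exp 1.1) := by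
      apply Real.log_le_log (by norm_num)
      have h2 := Real.quadratic_le_exp_of_nonneg (show (0 : ℝ) ≤ 1.1 by norm_num)
      have h3 : Real.exp 1.1 = Real.exp 1 * Real.exp 0.1 := by rw [← Real.exp_add]; norm_num
      have h4 := Real.exp_one_gt_d9
      have h5 := Real.add_one_le_exp (0.1 : ℝ)
      have h6 : (0.1 : ℝ) + 1 + 0.1 ^ 2 / 2 ≤ Real.exp 0.1 := by
        have := Real.quadratic_le_exp_of_nonneg (show (0 : ℝ) ≤ 0.1 by norm_num)
        linarith
      rw [h3]
      nlinarith
    rwa [Real.log_exp] at h1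
  have hlog30 : 0 < Real.log 3 := Real.log_pos (by norm_num)
  set η' : ℝ := min η 1 with hη'
  have hη'0 : 0 < η' := lt_min hη one_pos
  have hη'1 : η' ≤ 1 := min_le_right _ _
  have hη'η : η' ≤ η := min_le_left _ _
  have hsR : (0 : ℝ) ≤ s := Nat.cast_nonneg _
  set δ : ℝ := η' / (16 * (s + 2)) with hδdef
  have hδ0 : 0 < δ := by positivity
  have hδs : δ * (16 * (s + 2)) = η' := by rw [hδdef]; field_simp
  have hδη : δ ≤ η' / 32 := by nlinarith
  obtain ⟨ε1, hε1, N1, hmerge⟩ := merge (p := 2) (q := 3) (by norm_num) s δ hδ0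
  set ε : ℝ := min (ε1 / 2) (η' / 16) with hεdef
  have hε0 : 0 < ε := lt_min (by positivity) (by positivity)
  have hεε1 : ε ≤ ε1 / 2 := min_le_left _ _
  have hεη : ε ≤ η' / 16 := min_le_right _ _
  refine ⟨ε, hε0, max N1 (⌈8 * ((s : ℝ) + 1) / η'⌉₊ + 1), ?_⟩
  intro N hN x y t hxy h0 hs hmono ho hpc hlast
  have hN1 : N1 ≤ N := (le_max_left _ _).trans hN
  have hNR : 8 * ((s : ℝ) + 1) / η' ≤ N := by
    refine le_trans (Nat.le_ceil _) ?_
    exact_mod_cast le_trans (le_trans (Nat.le_succ _) (le_max_right _ _)) hN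
  rw [div_le_iff₀ hη'0] at hNR
  have hN0 : (0 : ℝ) ≤ N := Nat.cast_nonneg _
  have hNpos : (1 : ℝ) ≤ N := by
    have : 1 ≤ N := le_trans (Nat.le_add_left _ _) ((le_max_right _ _).trans hN)
    exact_mod_cast this
  have hxy' : |(x : ℝ) - y| ≤ (2 : ℝ) ^ ((1 - η') * N) := by
    refine hxy.trans (Real.rpow_le_rpow_of_exponent_le (by norm_num) ?_)
    nlinarith
  have hlast' : (t (s - 1) : ℝ) ≤ (1 - η') * N := by nlinarith
  -- monotonicity
  have htm : ∀ b, b ≤ s → ∀ a ≤ b, t a ≤ t b := by
    intro b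
    induction b with
    | zero => intro _ a ha; rw [Nat.le_zero.1 ha]
    | succ b ih =>
      intro hb a ha
      rcases Nat.lt_or_ge a (b + 1) with h | h
      · exact (ih (by omega) a (by omega)).trans (hmono b (by omega))
      · have : a = b + 1 := by omega
        rw [this]
  set K : ℕ := odds x N with hK
  have hKN : K ≤ N := odds_le x N
  have hKNR : (K : ℝ) ≤ N := by exact_mod_cast hKN
  set lam : ℕ → ℤ := fun k => Sw (par x) (t k) (t (k + 1) - t k) -
    Sw (par y) (t k) (t (k + 1) - t k) with hlam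
  set be : ℕ → ℕ := fun k => K - odds x (t (k + 1)) with hbe
  have hmain := telescope x y s t h0 hmono ho s le_rfl
  rw [hs] at hmain
  have hlamle : ∀ k < s, |(lam k : ℝ)| ≤ Real.exp (2 * ε * N) := by
    intro k hk
    rcases hpc k hk with h | h
    · have hx := Sw_bound (par_le x) (t k) (t (k + 1) - t k)
      have hy := Sw_bound (par_le y) (t k) (t (k + 1) - t k)
      have h1 : |lam k| ≤ 3 ^ (t (k + 1) - t k) := by
        have h2 : (0 : ℤ) < 2 ^ (t (k + 1) - t k) := by positivity
        simp only [hlam]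
        rw [abs_le]
        constructor <;> linarith [hx.1, hx.2, hy.1, hy.2]
      have h2 : |(lam k : ℝ)| ≤ (3 : ℝ) ^ (t (k + 1) - t k) := by exact_mod_cast h1
      refine h2.trans ?_
      have h3 : (3 : ℝ) ^ (t (k + 1) - t k) =
          Real.exp (((t (k + 1) - t k : ℕ) : ℝ) * Real.log 3) := by
        rw [Real.exp_nat_mul, Real.exp_log (by norm_num)]
      rw [h3]
      apply Real.exp_le_exp.2
      rw [Nat.cast_sub (hmono k hk)]
      have h4 : 0 ≤ ε * N := by positivity
      nlinarith
    · have h1 : lam k = 0 := by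
        simp only [hlam]
        rw [sub_eq_zero]
        apply Sw_congr
        intro i hi
        unfold par
        rw [h (t k + i) (by omega) (by omega)]
      rw [h1, Int.cast_zero, abs_zero]
      exact (Real.exp_pos _).le
  have htk : ∀ k < s, (2 : ℝ) ^ t k ≤ (2 : ℝ) ^ ((1 - η') * N) := by
    intro k hk
    rw [← Real.rpow_natCast]
    apply Real.rpow_le_rpow_of_exponent_le (by norm_num)
    have h1 : t k ≤ t (s - 1) := htm (s - 1) (by omega) k (by omega)
    have h2 : (t k : ℝ) ≤ t (s - 1) := by exact_mod_cast h1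
    linarith
  -- the size
  set U : ℝ := (2 : ℝ) ^ ((1 - η') * N) with hU
  have hU0 : 0 < U := by positivity
  have hsize : |(2 : ℝ) ^ N * ((T^[N] x : ℝ) - T^[N] y)| ≤
      (3 : ℝ) ^ K * ((1 + s) * Real.exp (2 * ε * N) * U) := by
    have h1 : (2 : ℝ) ^ N * ((T^[N] x : ℝ) - T^[N] y) = (3 : ℝ) ^ K * ((x : ℝ) - y) +
        ∑ k ∈ Finset.range s, (lam k : ℝ) * ((2 : ℝ) ^ t k * (3 : ℝ) ^ be k) := by
      have := congrArg (fun z : ℤ => (z : ℝ)) hmain
      push_cast at this
      simp only [hlam, hbe]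
      push_cast
      exact this
    rw [h1]
    refine (abs_add_le _ _).trans ?_
    have h2 : |(3 : ℝ) ^ K * ((x : ℝ) - y)| ≤ (3 : ℝ) ^ K * (Real.exp (2 * ε * N) * U) := by
      rw [abs_mul, abs_of_pos (by positivity : (0 : ℝ) < (3 : ℝ) ^ K)]
      apply mul_le_mul_of_nonneg_left _ (by positivity)
      have h3 : (1 : ℝ) ≤ Real.exp (2 * ε * N) := Real.one_le_exp (by positivity)
      nlinarith
    have h3 : |∑ k ∈ Finset.range s, (lam k : ℝ) * ((2 : ℝ) ^ t k * (3 : ℝ) ^ be k)| ≤
        s * ((3 : ℝ) ^ K * (Real.exp (2 * ε * N) * U)) := by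
      refine (Finset.abs_sum_le_sum_abs _ _).trans ?_
      refine (Finset.sum_le_card_nsmul _ _ ((3 : ℝ) ^ K * (Real.exp (2 * ε * N) * U))
        (fun k hk => ?_)).trans (le_of_eq ?_)
      · have hk' := Finset.mem_range.1 hk
        rw [abs_mul, abs_of_pos (by positivity : (0 : ℝ) < (2 : ℝ) ^ t k * (3 : ℝ) ^ be k)]
        have h4 : (3 : ℝ) ^ be k ≤ (3 : ℝ) ^ K :=
          pow_le_pow_right₀ (by norm_num) (Nat.sub_le _ _)
        calc |(lam k : ℝ)| * ((2 : ℝ) ^ t k * (3 : ℝ) ^ be k) ≤
            Real.exp (2 * ε * N) * (U * (3 : ℝ) ^ K) :=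
              mul_le_mul (hlamle k hk') (mul_le_mul (htk k hk') h4 (by positivity) hU0.le)
                (by positivity) (Real.exp_pos _).le
          _ = _ := by ring
      · rw [Finset.card_range, nsmul_eq_mul]
    calc _ ≤ (3 : ℝ) ^ K * (Real.exp (2 * ε * N) * U) +
        s * ((3 : ℝ) ^ K * (Real.exp (2 * ε * N) * U)) := add_le_add h2 h3
      _ = _ := by ring
  set m : ℕ := ⌈δ * N⌉₊ with hm
  have hmδ : δ * N ≤ m := Nat.le_ceil _
  have hm1 : (m : ℝ) ≤ δ * N + 1 := (Nat.ceil_lt_add_one (by positivity)).le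
  have hstar : (3 : ℝ) ^ ((s + 1) * m) * ((1 + s) * Real.exp (2 * ε * N) * U) ≤
      (2 : ℝ) ^ N * Real.exp (-(δ * N)) := by
    have e1 : (3 : ℝ) ^ ((s + 1) * m) = Real.exp ((((s + 1) * m : ℕ) : ℝ) * Real.log 3) := by
      rw [Real.exp_nat_mul, Real.exp_log (by norm_num)]
    have e2 : (2 : ℝ) ^ N = Real.exp (N * Real.log 2) := by
      rw [Real.exp_nat_mul, Real.exp_log (by norm_num)]
    have e3 : U = Real.exp ((1 - η') * N * Real.log 2) := by
      rw [hU, Real.rpow_def_of_pos (by norm_num), mul_comm]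
    have e4 : (1 + s : ℝ) ≤ Real.exp s := by
      have := Real.add_one_le_exp (s : ℝ)
      linarith
    have e5 : (3 : ℝ) ^ ((s + 1) * m) * ((1 + s) * Real.exp (2 * ε * N) * U) ≤
        (3 : ℝ) ^ ((s + 1) * m) * (Real.exp s * Real.exp (2 * ε * N) * U) := by
      apply mul_le_mul_of_nonneg_left _ (by positivity)
      apply mul_le_mul_of_nonneg_right _ hU0.le
      exact mul_le_mul_of_nonneg_right e4 (Real.exp_pos _).le
    refine e5.trans ?_
    rw [e1, e2, e3, ← Real.exp_add, ← Real.exp_add, ← Real.exp_add, ← Real.exp_add]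
    apply Real.exp_le_exp.2
    push_cast
    have g1 : ((s : ℝ) + 1) * m ≤ (s + 1) * (δ * N + 1) :=
      mul_le_mul_of_nonneg_left hm1 (by positivity)
    have g2 : ((s : ℝ) + 1) * m * Real.log 3 ≤ (s + 1) * (δ * N + 1) * 1.1 := by
      apply mul_le_mul g1 hlog3 hlog30.le (by positivity)
    have g3 : ((s : ℝ) + 1) * (δ * N) ≤ η' * N / 16 := by
      have : ((s : ℝ) + 1) * δ ≤ η' / 16 := by nlinarith
      calc ((s : ℝ) + 1) * (δ * N) = (s + 1) * δ * N := by ring
        _ ≤ η' / 16 * N := mul_le_mul_of_nonneg_right this hN0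
        _ = _ := by ring
    have g4 : 2 * ε * N ≤ η' * N / 8 := by
      have := mul_le_mul_of_nonneg_right hεη hN0
      linarith
    have g5 : δ * N ≤ η' * N / 32 := by
      have := mul_le_mul_of_nonneg_right hδη hN0
      linarith
    have g6 : (0.69 : ℝ) * (η' * N) ≤ Real.log 2 * (η' * N) :=
      mul_le_mul_of_nonneg_right hlog2 (by positivity)
    nlinarith
  have hfin : T^[N] x - T^[N] y = 0 → T^[N] x = T^[N] y := fun h => by linarith
  apply hfin
  have h2N : (0 : ℝ) < (2 : ℝ) ^ N := by positivity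
  have hexp1 : Real.exp (-(δ * N)) < 1 := by
    rw [Real.exp_lt_one_iff]
    have : 0 < δ * N := by positivity
    linarith
  rcases Nat.lt_or_ge K ((s + 1) * m) with hcase | hcase
  · -- few odd terms
    have h1 : |(2 : ℝ) ^ N * ((T^[N] x : ℝ) - T^[N] y)| < (2 : ℝ) ^ N := by
      refine lt_of_le_of_lt hsize ?_
      have h2 : (3 : ℝ) ^ K ≤ (3 : ℝ) ^ ((s + 1) * m) :=
        pow_le_pow_right₀ (by norm_num) hcase.le
      have h3 : (3 : ℝ) ^ K * ((1 + s) * Real.exp (2 * ε * N) * U) ≤
          (3 : ℝ) ^ ((s + 1) * m) * ((1 + s) * Real.exp (2 * ε * N) * U) :=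
        mul_le_mul_of_nonneg_right h2 (by positivity)
      have h4 := h3.trans hstar
      nlinarith
    rw [abs_mul, abs_of_pos h2N] at h1
    have h2 : |(T^[N] x : ℝ) - T^[N] y| < 1 := by
      by_contra hcon
      rw [not_lt] at hcon
      nlinarith
    have h3 : |T^[N] x - T^[N] y| < 1 := by exact_mod_cast h2
    exact Int.abs_lt_one_iff.1 h3
  · obtain ⟨i, hi, hlev⟩ := level s K m hcase (fun k : Fin s => be k)
    set K' : ℕ := K - i * m with hK'
    have him : i * m ≤ s * m := Nat.mul_le_mul_right _ hi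
    have hsm : (s + 1) * m = s * m + m := by ring
    have hKK' : K = K' + i * m := by omega
    have hmK' : m ≤ K' := by omega
    set lam' : Fin s → ℤ := fun k => if K' ≤ be k then 0 else lam k with hlam'
    set be' : Fin s → ℕ := fun k => if K' ≤ be k then 0 else be k with hbe'
    have hu := hmerge N hN1 N K' (fun k : Fin s => t k) be'
      (by nlinarith)
      (by
        have h1 : (K' : ℝ) ≤ K := by exact_mod_cast Nat.sub_le _ _
        have h2 : (0 : ℝ) ≤ K' := Nat.cast_nonneg _
        nlinarith)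
      (by
        intro k
        have h1 : t k ≤ t (s - 1) := htm (s - 1) (by omega) k (by omega)
        have h2 : (t k : ℝ) ≤ t (s - 1) := by exact_mod_cast h1
        have h3 := mul_le_mul_of_nonneg_right hδη hN0
        nlinarith)
      (by
        intro k
        simp only [hbe']
        have hmK'R : (m : ℝ) ≤ K' := by exact_mod_cast hmK'
        split_ifs with h
        · rw [Nat.cast_zero, zero_add]
          exact hmδ.trans hmK'R
        · have h1 := (hlev k).resolve_right h
          have h2 : (be k : ℝ) + m ≤ K' := by exact_mod_cast h1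
          linarith)
      lam'
      (by
        intro k
        simp only [hlam']
        split_ifs
        · rw [Int.cast_zero, abs_zero]; exact (Real.exp_pos _).le
        · refine (hlamle k k.2).trans (Real.exp_le_exp.2 ?_)
          have := mul_le_mul_of_nonneg_right hεε1 hN0
          linarith)
      (-(2 ^ N * (T^[N] x - T^[N] y)))
      (by
        rw [Nat.cast_ofNat]
        exact (Dvd.intro _ rfl).neg_right)
      (by
        rw [Nat.cast_ofNat, Nat.cast_ofNat]
        have e1 : -(2 ^ N * (T^[N] x - T^[N] y)) + ∑ k : Fin s, lam' k * (2 ^ t k * 3 ^ be' k) =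
            -(3 ^ K * (x - y)) - ∑ k : Fin s, (lam k * (2 ^ t k * 3 ^ be k) -
              lam' k * (2 ^ t k * 3 ^ be' k)) := by
          rw [hmain, Finset.sum_sub_distrib, Finset.sum_range]
          ring
        rw [e1]
        apply dvd_sub
        · apply Dvd.dvd.neg_right
          exact (pow_dvd_pow _ (by omega)).mul_right _
        · apply Finset.dvd_sum
          intro k _
          simp only [hlam', hbe']
          split_ifs with h
          · rw [zero_mul, sub_zero]
            exact ((pow_dvd_pow _ h).mul_left _).mul_left _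
          · rw [sub_self]; exact dvd_zero _)
      (by
        push_cast
        rw [abs_neg]
        refine hsize.trans ?_
        have h1 : (3 : ℝ) ^ K ≤ (3 : ℝ) ^ K' * (3 : ℝ) ^ ((s + 1) * m) := by
          rw [← pow_add]
          exact pow_le_pow_right₀ (by norm_num) (by omega)
        calc (3 : ℝ) ^ K * ((1 + s) * Real.exp (2 * ε * N) * U) ≤
            (3 : ℝ) ^ K' * (3 : ℝ) ^ ((s + 1) * m) * ((1 + s) * Real.exp (2 * ε * N) * U) :=
              mul_le_mul_of_nonneg_right h1 (by positivity)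
          _ = (3 : ℝ) ^ K' * ((3 : ℝ) ^ ((s + 1) * m) * ((1 + s) * Real.exp (2 * ε * N) * U)) := by
            ring
          _ ≤ (3 : ℝ) ^ K' * ((2 : ℝ) ^ N * Real.exp (-(δ * N))) :=
              mul_le_mul_of_nonneg_left hstar (by positivity)
          _ = _ := by ring)
    have h1 : (2 : ℤ) ^ N * (T^[N] x - T^[N] y) = 0 := by linarith
    rcases mul_eq_zero.1 h1 with h2 | h2
    · exact absurd h2 (pow_ne_zero _ (by norm_num))
    · exact h2

end Pool.Agent.Results.MP_d02c56_nt.Coalescence
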