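import Mathlib
import Pool.Agent.H547R3.Sub.Tqk2

set_option autoImplicit false

namespace Pool.Agent.Results.MP_d02c56_nt.MasterInequality

/-- The (accelerated) Collatz map on the integers: `x / 2` for even `x`, `(3 x + 1) / 2` for odd
`x`. -/
def T (x : ℤ) : ℤ := if x % 2 = 0 then x / 2 else (3 * x + 1) / 2

/-- The factor `w a, w (a+1), ..., w (b-1)` of the sequence `w` has period `π`. -/
def HasPeriod (w : ℕ → ℤ) (π a b : ℕ) : Prop := ∀ j, a ≤ j → j + π < b → w (j + π) = w j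

/-- The word `w 0, w 1, ..., w (n-1)` is a concatenation of `m` words (cut at `0 = t 0 ≤ t 1 ≤ ... ≤
t m = n`), each of which has some period `π` with `1 ≤ π ≤ ℓ`. -/
def Splits (w : ℕ → ℤ) (ℓ m n : ℕ) : Prop :=
  ∃ t : ℕ → ℕ, t 0 = 0 ∧ t m = n ∧ (∀ i < m, t i ≤ t (i + 1)) ∧
    ∀ i < m, ∃ π, 1 ≤ π ∧ π ≤ ℓ ∧ HasPeriod w π (t i) (t (i + 1))

open Pool.Agent.H547R3.Sub in
lemma T_eq : T = Tm (3 : ℕ) 1 := by
  funext x; simp [T, Tm]

open Pool.Agent.H547R3.Sub in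
lemma dec_of_splits {x : ℤ} {ℓ m n : ℕ} (h : Splits (fun i => T^[i] x % 2) ℓ m n) :
    Dec (par (3 : ℕ) 1 x) ℓ m 0 n := by
  obtain ⟨t, h0, hm, hmono, hper⟩ := h
  refine ⟨t, h0, hm, hmono, fun i hi => ?_⟩
  obtain ⟨π, h1, h2, h3⟩ := hper i hi
  refine ⟨π, h1, h2, fun j hj1 hj2 => ?_⟩
  have h4 := h3 j hj1 hj2
  simp only [T_eq] at h4
  exact par_int _ _ _ _ _ h4

open Pool.Agent.H547R3.Sub in
/-- a repetition with difference at most `83` forces one of the five known cycles -/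
lemma reach {x : ℤ} {j π : ℕ} (h1 : 1 ≤ π) (h2 : π ≤ 83) (h : T^[j + π] x = T^[j] x) :
    ∃ i < j + π, T^[i] x ∈ ({0, 1, -1, -5, -17} : Set ℤ) := by
  rcases lt_trichotomy x 0 with hx | hx | hx
  · obtain ⟨y, rfl⟩ : ∃ y : ℕ, x = -(y : ℤ) := ⟨x.natAbs, by omega⟩
    have e : ∀ i, T^[i] (-(y : ℤ)) = -((SN^[i] y : ℕ) : ℤ) := fun i => by
      rw [T_eq]; exact Tm_neg_cast y i
    rw [e, e] at h
    obtain ⟨i, hi, h3⟩ := reach_neg (x := y) (j := j) (by omega) h1 h2 (by omega)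
    refine ⟨i, hi, ?_⟩
    rw [e]
    rcases h3 with h3 | h3 | h3 <;> rw [h3] <;> simp
  · exact ⟨0, by omega, by simp [hx]⟩
  · obtain ⟨y, rfl⟩ : ∃ y : ℕ, x = (y : ℤ) := ⟨x.natAbs, by omega⟩
    have e : ∀ i, T^[i] (y : ℤ) = ((SP^[i] y : ℕ) : ℤ) := fun i => by
      rw [T_eq]; exact Tm_cast y i
    rw [e, e] at h
    obtain ⟨i, hi, h3⟩ := reach_one (x := y) (j := j) (by omega) h1 (by omega) (by omega)
    refine ⟨i, hi, ?_⟩
    rw [e, h3]; simp

open Pool.Agent.H547R3.Sub in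
/-- For every `C > 0` there is `A` such that for every integer `x` and all `n, m, ℓ`: if the word of
the first `n` parities of the trajectory of `x` is a concatenation of `m` words each having a period
at most `ℓ`, then the trajectory reaches within `n` steps one of `0, 1, -1, -5, -17`, or enters
within `n` steps a cycle with a length between `84` and `ℓ`, or
`m ≥ C log (n / (ℓ + 1 + log (|x| + 1))) - A`. -/
theorem result (C : ℝ) (hC : 0 < C) :
    ∃ A : ℝ, ∀ (x : ℤ) (n m ℓ : ℕ), 1 ≤ n → Splits (fun i => T^[i] x % 2) ℓ m n →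
      (∃ i < n, T^[i] x ∈ ({0, 1, -1, -5, -17} : Set ℤ)) ∨
      (∃ j π, 84 ≤ π ∧ π ≤ ℓ ∧ j + π ≤ n ∧ T^[j + π] x = T^[j] x) ∨
      C * Real.log (n / (ℓ + 1 + Real.log (|(x : ℝ)| + 1))) ≤ m + A := by
  obtain ⟨A, hA, h⟩ := chainT2 (q := 3) Nat.prime_three (by norm_num) C hC
  refine ⟨C * Real.log A, fun x n m ℓ hn hS => ?_⟩
  by_cases h1 : ∃ i < n, T^[i] x ∈ ({0, 1, -1, -5, -17} : Set ℤ)
  · exact Or.inl h1
  right
  by_cases h2 : ∃ j π, 84 ≤ π ∧ π ≤ ℓ ∧ j + π ≤ n ∧ T^[j + π] x = T^[j] x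
  · exact Or.inl h2
  right
  have h3 := h 1 (by norm_num) ℓ x m 0 n (dec_of_splits hS) (fun j π _ h4 h5 h6 h7 => by
    rw [← T_eq] at h7
    rcases Nat.lt_or_ge π 84 with h8 | h8
    · obtain ⟨i, hi, h9⟩ := reach h4 (by omega) h7
      exact h1 ⟨i, by omega, h9⟩
    · exact h2 ⟨j, π, h8, h5, h6, h7⟩)
  simp only [Function.iterate_zero, id, Nat.cast_zero, sub_zero, Int.cast_one, abs_one] at h3
  have hnR : (1 : ℝ) ≤ n := by exact_mod_cast hn
  have hLx : 0 ≤ Real.log (|(x : ℝ)| + 1) :=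
    Real.log_nonneg (by have := abs_nonneg (x : ℝ); linarith)
  have hℓ0 : (0 : ℝ) ≤ ℓ := Nat.cast_nonneg _
  have hS0 : (0 : ℝ) < ℓ + 1 + Real.log (|(x : ℝ)| + 1) := by positivity
  have h4 : Real.log (n / (ℓ + 1 + Real.log (|(x : ℝ)| + 1))) ≤
      Real.log (A * Real.exp (m / C)) := by
    apply Real.log_le_log (by positivity)
    rw [div_le_iff₀ hS0]
    linarith
  rw [Real.log_mul hA.ne' (Real.exp_pos _).ne', Real.log_exp] at h4
  have h5 := mul_le_mul_of_nonneg_left h4 hC.le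
  have h6 : C * (Real.log A + m / C) = m + C * Real.log A := by field_simp; ring
  linarith

end Pool.Agent.Results.MP_d02c56_nt.MasterInequality
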