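import Pool.Agent.H426R3.CL.Fin2

set_option autoImplicit false

/-!
The trajectories of the Collatz map on the integers and the parity of the number of prime factors.

Every bounded function on the integers that takes the same value at coalescing integers is
orthogonal to the Liouville function and to the Möbius function, in every residue class. The
invariant sets contain as many integers with an even as with an odd number of prime factors, and the
statement that all trajectories reach the five known cycles is equivalent to its restriction to the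
integers with an even number of prime factors in one residue class, and to its restriction to the
squarefree integers with an even number of prime factors.

Author: helper426. Uses the theorem of helper499 and team (Pool/Agent/H499R2) that `n` and `n + 1`
coalesce for almost all `n` and the soft Matomäki-Radziwiłł theorem of helper376, helper970 and team
(Pool/Agent/H376R2/MR, Pool/Agent/H970R2/X).
-/

namespace Pool.Agent.Results.MP_d02c56_nt.ParityOfPrimeFactors

open Filter Topology

/-- The Collatz map on the integers. -/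
def C (x : ℤ) : ℤ := if x % 2 = 0 then x / 2 else 3 * x + 1

/-- The accelerated Collatz map on the integers. -/
def T (x : ℤ) : ℤ := if x % 2 = 0 then x / 2 else (3 * x + 1) / 2

/-- The Liouville function `λ(n) = (-1) ^ Ω(n)`. -/
noncomputable def liouville (n : ℕ) : ℝ := (-1) ^ (ArithmeticFunction.cardFactors n)

/-- The positive integers with the property `P` have natural density `l`. -/
def HasDensity (P : ℕ → Prop) (l : ℝ) : Prop :=
  Tendsto (fun N : ℕ => ({n : ℕ | 1 ≤ n ∧ n ≤ N ∧ P n}.ncard : ℝ) / N) atTop (𝓝 l)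

/-- The union of the five known cycles. -/
def Known : Finset ℤ := {1, 4, 2, -1, -2, -5, -14, -7, -20, -10, -17, -50, -25, -74, -37, -110,
  -55, -164, -82, -41, -122, -61, -182, -91, -272, -136, -68, -34, 0}

/-- The trajectory of `x` reaches one of the five known cycles. -/
def Reaches (x : ℤ) : Prop := ∃ k : ℕ, C^[k] x ∈ Known

theorem known_closed : ∀ x ∈ Known, C x ∈ Known := by decide

theorem reaches_inv (x : ℤ) : Reaches x ↔ Reaches (C x) := by
  constructor
  · rintro ⟨k, hk⟩
    cases k with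
    | zero => exact ⟨0, known_closed x hk⟩
    | succ k => exact ⟨k, by rw [Function.iterate_succ_apply] at hk; exact hk⟩
  · rintro ⟨k, hk⟩
    exact ⟨k + 1, by rw [Function.iterate_succ_apply]; exact hk⟩

theorem natAbs_side {s : ℤ} (hs : s = 1 ∨ s = -1) (n : ℕ) : (s * (n : ℤ)).natAbs = n := by
  rcases hs with rfl | rfl <;> simp

theorem side_pos {s : ℤ} (hs : s = 1 ∨ s = -1) {n : ℕ} (hn : 1 ≤ n) : 0 < s * (s * (n : ℤ)) := by
  rcases hs with rfl | rfl <;> simp <;> omega

/-- (1) Let `F` be a bounded function on the integers with `F x = F y` whenever some iterates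
`T^t x`, `T^t y` with the same `t` are equal (for instance the indicator function of the integers
that reach a given cycle of `T`, or of those that reach it after a number of steps which lies in a
given set). Then, for both signs `s` and for every residue class `a mod q`, the averages over
`n ≤ N` of `λ(n) F(s n)` and of `μ(n) F(s n)`, `n ≡ a mod q`, tend to `0`.
(2) Let `S` be invariant under the Collatz map (`x ∈ S` if and only if `C x ∈ S`). Among the integers
of sign `s` the set `S` has a density `δ`, positive as soon as `S` contains an integer of sign `s`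
and equal to `1` only if `S` contains all of them, and for every residue class `a mod q` and both
values `e = ±1` the `n ≥ 1` with `s n ∈ S`, `n ≡ a mod q` and `λ(n) = e` have density `δ / (2 q)`.
(3) If such an `S` contains all integers `x` of sign `s` with `|x| ≡ a mod q` and `λ(|x|) = e`, or all
integers of sign `s` with `μ(|x|) = e`, then it contains all integers of sign `s`.
(4) Hence the trajectories of all integers reach the five known cycles if and only if this is true for
the integers `x` with `|x| ≡ a mod q` and `λ(|x|) = e`, and if and only if it is true for the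
integers `x` with `μ(|x|) = e`. -/
theorem result :
    (∀ F : ℤ → ℝ, (∃ B : ℝ, ∀ x, |F x| ≤ B) →
      (∀ (t : ℕ) (x y : ℤ), T^[t] x = T^[t] y → F x = F y) →
      ∀ s : ℤ, (s = 1 ∨ s = -1) → ∀ q a : ℕ, 1 ≤ q →
        Tendsto (fun N : ℕ => (∑ n ∈ (Finset.Icc 1 N).filter (fun n : ℕ => n % q = a % q),
          liouville n * F (s * (n : ℤ))) / N) atTop (𝓝 0) ∧
        Tendsto (fun N : ℕ => (∑ n ∈ (Finset.Icc 1 N).filter (fun n : ℕ => n % q = a % q),
          (ArithmeticFunction.moebius n : ℝ) * F (s * (n : ℤ))) / N) atTop (𝓝 0)) ∧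
    (∀ S : Set ℤ, (∀ x : ℤ, x ∈ S ↔ C x ∈ S) → ∀ s : ℤ, (s = 1 ∨ s = -1) →
      (∃ δ : ℝ, (0 < δ ↔ ∃ x ∈ S, 0 < s * x) ∧ (δ = 1 ↔ ∀ x : ℤ, 0 < s * x → x ∈ S) ∧
        ∀ q a : ℕ, 1 ≤ q → ∀ e : ℝ, (e = 1 ∨ e = -1) →
          HasDensity (fun n => s * (n : ℤ) ∈ S ∧ n % q = a % q ∧ liouville n = e)
            (δ / (2 * q))) ∧
      (∀ q a : ℕ, 1 ≤ q → ∀ e : ℝ, (e = 1 ∨ e = -1) →
        (∀ x : ℤ, 0 < s * x → x.natAbs % q = a % q → liouville x.natAbs = e → x ∈ S) →
        ∀ x : ℤ, 0 < s * x → x ∈ S) ∧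
      ∀ e : ℤ, (e = 1 ∨ e = -1) →
        (∀ x : ℤ, 0 < s * x → ArithmeticFunction.moebius x.natAbs = e → x ∈ S) →
        ∀ x : ℤ, 0 < s * x → x ∈ S) ∧
    (∀ q a : ℕ, 1 ≤ q → ∀ e : ℝ, (e = 1 ∨ e = -1) →
      ((∀ x : ℤ, Reaches x) ↔
        ∀ x : ℤ, x.natAbs % q = a % q → liouville x.natAbs = e → Reaches x)) ∧
    ∀ e : ℤ, (e = 1 ∨ e = -1) →
      ((∀ x : ℤ, Reaches x) ↔
        ∀ x : ℤ, ArithmeticFunction.moebius x.natAbs = e → Reaches x) := by
  have hA : ∀ S : Set ℤ, (∀ x : ℤ, x ∈ S ↔ C x ∈ S) → ∀ s : ℤ, (s = 1 ∨ s = -1) →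
      ∀ q a : ℕ, 1 ≤ q → ∀ e : ℝ, (e = 1 ∨ e = -1) →
        (∀ x : ℤ, 0 < s * x → x.natAbs % q = a % q → liouville x.natAbs = e → x ∈ S) →
        ∀ x : ℤ, 0 < s * x → x ∈ S := by
    intro S hS s hs q a hq e he H x hx
    by_contra hxS
    have hSc : ∀ x : ℤ, x ∈ Sᶜ ↔ C x ∈ Sᶜ := fun x => not_congr (hS x)
    obtain ⟨δ, h1, -, h3⟩ := Pool.Agent.H426R3.CL.inv_parity hs (S := Sᶜ) hSc
    have hδ : 0 < δ := h1.2 ⟨x, hxS, hx⟩
    have h4 := h3 q a hq e he
    have h5 : ∀ N : ℕ, Pool.Agent.H499R2.ND.cnt (fun n : ℕ => s * (n : ℤ) ∈ Sᶜ ∧ n % q = a % q ∧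
        (-1 : ℝ) ^ (ArithmeticFunction.cardFactors n) = e) N / N = 0 := by
      intro N
      have h6 : {n : ℕ | 1 ≤ n ∧ n ≤ N ∧ s * (n : ℤ) ∈ Sᶜ ∧ n % q = a % q ∧
          (-1 : ℝ) ^ (ArithmeticFunction.cardFactors n) = e} = ∅ := by
        ext n
        simp only [Set.mem_setOf_eq, Set.mem_empty_iff_false, iff_false]
        rintro ⟨a1, -, a2, a3, a4⟩
        apply a2
        apply H _ (side_pos hs a1)
        · rw [natAbs_side hs]; exact a3
        · rw [natAbs_side hs]; exact a4
      unfold Pool.Agent.H499R2.ND.cnt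
      rw [h6]
      simp
    simp_rw [h5] at h4
    have h7 := tendsto_nhds_unique h4 tendsto_const_nhds
    have hq0 : (0 : ℝ) < q := by exact_mod_cast hq
    have h8 : 0 < δ / (2 * q) := by positivity
    linarith
  have hM : ∀ S : Set ℤ, (∀ x : ℤ, x ∈ S ↔ C x ∈ S) → ∀ s : ℤ, (s = 1 ∨ s = -1) →
      ∀ e : ℤ, (e = 1 ∨ e = -1) →
        (∀ x : ℤ, 0 < s * x → ArithmeticFunction.moebius x.natAbs = e → x ∈ S) →
        ∀ x : ℤ, 0 < s * x → x ∈ S := by
    intro S hS s hs e he H x hx
    by_contra hxS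
    have hSc : ∀ x : ℤ, x ∈ Sᶜ ↔ C x ∈ Sᶜ := fun x => not_congr (hS x)
    obtain ⟨c, hc, hev⟩ := Pool.Agent.H426R3.CL.mu_pos hs (S := Sᶜ) hSc ⟨x, hxS, hx⟩ he
    obtain ⟨N, hN1, hN2⟩ := (hev.and (eventually_ge_atTop 1)).exists
    have h6 : {n : ℕ | 1 ≤ n ∧ n ≤ N ∧ s * (n : ℤ) ∈ Sᶜ ∧
        ArithmeticFunction.moebius n = e} = ∅ := by
      ext n
      simp only [Set.mem_setOf_eq, Set.mem_empty_iff_false, iff_false]
      rintro ⟨a1, -, a2, a3⟩
      apply a2
      apply H _ (side_pos hs a1)
      rw [natAbs_side hs]; exact a3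
    unfold Pool.Agent.H499R2.ND.cnt at hN1
    rw [h6] at hN1
    simp only [Set.ncard_empty, Nat.cast_zero] at hN1
    have hN0 : (0 : ℝ) < N := by exact_mod_cast hN2
    have : 0 < c * N := by positivity
    linarith
  have hR : ∀ x : ℤ, x ∈ {x | Reaches x} ↔ C x ∈ {x | Reaches x} := fun x => reaches_inv x
  have h0 : Reaches 0 := ⟨0, by decide⟩
  refine ⟨?_, ?_, ?_, ?_⟩
  · rintro F ⟨B, hB⟩ hF s hs q a hq
    exact ⟨Pool.Agent.H426R3.CL.liouville_closed hs hB hF q a hq,
      Pool.Agent.H426R3.CL.moebius_closed hs hB hF q a hq⟩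
  · intro S hS s hs
    refine ⟨?_, hA S hS s hs, hM S hS s hs⟩
    obtain ⟨δ, h1, h2, h3⟩ := Pool.Agent.H426R3.CL.inv_parity hs (S := S) hS
    exact ⟨δ, h1, h2, fun q a hq e he => h3 q a hq e he⟩
  · intro q a hq e he
    refine ⟨fun h x _ _ => h x, fun h x => ?_⟩
    rcases lt_trichotomy x 0 with hx | hx | hx
    · exact hA _ hR (-1) (Or.inr rfl) q a hq e he (fun y _ h1 h2 => h y h1 h2) x (by omega)
    · rw [hx]; exact h0
    · exact hA _ hR 1 (Or.inl rfl) q a hq e he (fun y _ h1 h2 => h y h1 h2) x (by omega)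
  · intro e he
    refine ⟨fun h x _ => h x, fun h x => ?_⟩
    rcases lt_trichotomy x 0 with hx | hx | hx
    · exact hM _ hR (-1) (Or.inr rfl) e he (fun y _ h1 => h y h1) x (by omega)
    · rw [hx]; exact h0
    · exact hM _ hR 1 (Or.inl rfl) e he (fun y _ h1 => h y h1) x (by omega)

end Pool.Agent.Results.MP_d02c56_nt.ParityOfPrimeFactors
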